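import Pool.Agent.WAR.StmtsI

/-!
# WAR rows OMA and OMJ (helper40): `Om` is stable under matrices and under `J`
-/

namespace Pool.Agent.WAR.H40

open Classical

variable [Par]

theorem nearE_le {F : Type} [NormedField F] {m0 : F} {r s : ℝ} (hr : 0 < r) (h : r ≤ s)
    {z : F × F × F} (hz : NearE m0 r z) : NearE m0 s z := by
  obtain ⟨h1, h2, h3, h4⟩ := hz
  have h5 : 1 / s ≤ 1 / r := one_div_le_one_div_of_le hr h
  exact ⟨h1, lt_of_le_of_lt h5 h2, lt_of_le_of_lt h5 h3, lt_of_lt_of_le h4 h⟩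

/-- a point near the corner (radius at most `1`) has coordinates of norm `> 1` -/
theorem nearE_one {F : Type} [NormedField F] {m0 : F} {r : ℝ} (hr : 0 < r) (h : r ≤ 1)
    {z : F × F × F} (hz : NearE m0 r z) : 1 < ‖z.1‖ ∧ 1 < ‖z.2.1‖ := by
  have hbig : 1 ≤ 1 / r := by
    rw [le_div_iff₀ hr, one_mul]
    exact h
  exact ⟨lt_of_le_of_lt hbig hz.2.1, lt_of_le_of_lt hbig hz.2.2.1⟩

theorem oma (con : ConStmt) (med : MedStmt) (rbs : RbsStmt) (rcs : RcsStmt) (rts : RtsStmt) :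
    OmaStmt := by
  intro ι F _ ϖ S q hF hqS hle a b c e w w1 hw hs
  have hq := hF.1 q
  refine ⟨hs.2.1, fun B1 hB1 hw1 => ?_⟩
  obtain ⟨B, hB, hwB, hmap⟩ := con (F q) (Or.inl ⟨ϖ q, hq⟩) _ w w1 hs B1 hB1 hw1
  obtain ⟨r, hr, hrch⟩ := hw.2 B hB hwB
  obtain ⟨r3, hr3, hmed⟩ := med (F q) (ϖ q) hq a b c e hs.2.2.1
  have hmin : 0 < min (min r r3) 1 := lt_min (lt_min hr hr3) one_pos
  refine ⟨min (min r r3) 1, hmin, fun y hy => ?_⟩
  have hy1 : NearE 0 r y := nearE_le hmin (le_trans (min_le_left _ _) (min_le_left _ _)) hy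
  have hy3 : NearE 0 r3 y := nearE_le hmin (le_trans (min_le_left _ _) (min_le_right _ _)) hy
  obtain ⟨hb1, hb2⟩ := nearE_one hmin (min_le_right _ _) hy
  obtain ⟨y', hy'⟩ := hmed y hy3
  have h1 : Rch F S q y' B1 := rcs ι F ϖ S q hF.1 [.act a b c e] y y' B B1 (hrch y hy1)
    ⟨y', hy', hy'.2.1, rfl⟩ (fun x hx hxU => by
      obtain ⟨z2, hz2, hs2⟩ := hmap x hx hxU
      exact ⟨z2, hz2, z2, hs2, hs2.2.1, rfl⟩)
  exact rts ι F ϖ S q hF.1 y y' B1 hB1 (rbs ι F ϖ S q hF hqS hle a b c e y y' hb1 hb2 hy') h1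

theorem omj (con : ConStmt) (jco : JcoStmt) (inv : InvStmt) (rcs : RcsStmt) : OmjStmt := by
  intro ι F _ ϖ S q hF hqS hle w w1 hw hs
  have hq := hF.1 q
  haveI : Gd (F q) := hq.gd
  refine ⟨hs.2.1, fun B1 hB1 hw1 => ?_⟩
  obtain ⟨B, hB, hwB, hmap⟩ := con (F q) (Or.inl ⟨ϖ q, hq⟩) _ w w1 hs B1 hB1 hw1
  obtain ⟨r, hr, hrch⟩ := hw.2 B hB hwB
  obtain ⟨r', hr', hjco⟩ := jco (F q) (ϖ q) hq r hr
  refine ⟨r', hr', fun z hz => ?_⟩
  obtain ⟨y, hy, hny⟩ := hjco z hz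
  have hinv : Step .jj y z := inv (F q) hq.two_ne .jj z y hy
  exact rcs ι F ϖ S q hF.1 [.jj] y z B B1 (hrch y hny) ⟨z, hinv, hinv.2.1, rfl⟩
    (fun x hx hxU => by
      obtain ⟨z2, hz2, hs2⟩ := hmap x hx hxU
      exact ⟨z2, hz2, z2, hs2, hs2.2.1, rfl⟩)

end Pool.Agent.WAR.H40
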