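import Pool.Agent.WAR.Alg
import Pool.Agent.Helper40_WAR.OMA

/-!
# WAR rows OMS and OMT (helper40): `Om` is stable under the swap and under translations
-/

namespace Pool.Agent.WAR.H40

open Classical Pool.Agent.WAR.G

variable [Par]

/-- the matrix `(0, 1; -1, 0)`: `(P, Q) ↦ (Q, -P)` on triples -/
theorem actf_k {F : Type} [Field F] [Gd F] (fre : FreStmt) (h2 : (2 : F) ≠ 0) {z : F × F × F}
    (hz : OnU z) : actf 0 1 (-1) 0 z = (z.2.1, z.1, -z.2.2) := by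
  obtain ⟨hd, hk, -, -⟩ := fre F h2 z hz
  rw [kum_def] at hk
  have e1 : xn (frP z) = z.1 := congrArg Prod.fst hk
  have e2 : xn (frQ z) = z.2.1 := congrArg (fun w => w.2.1) hk
  have e3 : cub z.1 * yn (frP z) * yn (frQ z) = z.2.2 := congrArg (fun w => w.2.2) hk
  unfold actf
  rw [kum_def, zero_sm, zero_add, one_sm, zero_sm, add_zero, neg_sm, one_sm, xn_neg, yn_neg, e1, e2]
  refine Prod.ext rfl (Prod.ext rfl ?_)
  show cub z.1 * yn (frQ z) * -yn (frP z) = -z.2.2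
  rw [← e3]
  ring

/-- the image of a point near the corner under the matrix and the swap is near the corner -/
theorem nearE_k {F : Type} [NormedField F] [Gd F] (fre : FreStmt) (h2 : (2 : F) ≠ 0) {r : ℝ}
    {z z' : F × F × F} (hz : NearE 0 r z) (hs : Step (.act 0 1 (-1) 0) z z') :
    Step .sw z' (swf z') ∧ Step .sw (swf z') z' ∧ NearE 0 r (swf z') := by
  obtain ⟨hU, h1, h3, h4⟩ := hz
  have hz' : z' = (z.2.1, z.1, -z.2.2) := by rw [hs.2.2.2, actf_k fre h2 hU]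
  have hsw : swf z' = (z.1, z.2.1, -z.2.2) := by rw [hz']; rfl
  have hU2 : OnU (swf z') := by
    rw [hsw]
    refine ⟨?_, neg_ne_zero.2 hU.2⟩
    show (-z.2.2) ^ 2 = cub z.1 * cub z.2.1
    rw [neg_sq]
    exact hU.1
  have hm : mz (swf z') = -mz z := by
    rw [hsw]
    unfold mz
    rw [neg_div]
  refine ⟨⟨hs.2.1, hU2, rfl⟩, ⟨hU2, hs.2.1, rfl⟩, hU2, ?_, ?_, ?_⟩
  · rw [hsw]; exact h1
  · rw [hsw]; exact h3
  · rw [hm, sub_zero, norm_neg]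
    rwa [sub_zero] at h4

theorem oms (con : ConStmt) (med : MedStmt) (rbs : RbsStmt) (rcs : RcsStmt) (rts : RtsStmt)
    (fre : FreStmt) (_fra : FraStmt) : OmsStmt := by
  intro ι F _ ϖ S q hF hqS hle w w1 hw hs
  have hq := hF.1 q
  haveI : Gd (F q) := hq.gd
  refine ⟨hs.2.1, fun B1 hB1 hw1 => ?_⟩
  obtain ⟨B, hB, hwB, hmap⟩ := con (F q) (Or.inl ⟨ϖ q, hq⟩) _ w w1 hs B1 hB1 hw1
  obtain ⟨r, hr, hrch⟩ := hw.2 B hB hwB
  obtain ⟨r3, hr3, hmed⟩ := med (F q) (ϖ q) hq 0 1 (-1) 0 (by ring)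
  have hmin : 0 < min (min r r3) 1 := lt_min (lt_min hr hr3) one_pos
  refine ⟨min (min r r3) 1, hmin, fun z hz => ?_⟩
  have hz1 : NearE 0 r z := nearE_le hmin (le_trans (min_le_left _ _) (min_le_left _ _)) hz
  have hz3 : NearE 0 r3 z := nearE_le hmin (le_trans (min_le_left _ _) (min_le_right _ _)) hz
  obtain ⟨hb1, hb2⟩ := nearE_one hmin (min_le_right _ _) hz
  obtain ⟨z', hz'⟩ := hmed z hz3
  obtain ⟨hs1, hs2, hn⟩ := nearE_k fre hq.two_ne hz1 hz'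
  have h1 : Rch F S q z' B1 := rcs ι F ϖ S q hF.1 [.sw] (swf z') z' B B1 (hrch _ hn)
    ⟨z', hs2, hs2.2.1, rfl⟩ (fun x hx hxU => by
      obtain ⟨z2, hz2, hs2⟩ := hmap x hx hxU
      exact ⟨z2, hz2, z2, hs2, hs2.2.1, rfl⟩)
  exact rts ι F ϖ S q hF.1 z z' B1 hB1 (rbs ι F ϖ S q hF hqS hle 0 1 (-1) 0 z z' hb1 hb2 hz') h1

theorem omt (con : ConStmt) (med : MedStmt) (rtg : RtgStmt) (rbs : RbsStmt) (rcj : RcjStmt)
    (rtr : RtrStmt) (rcs : RcsStmt) (rts : RtsStmt) (fre : FreStmt) (_fra : FraStmt) :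
    OmtStmt := by
  intro ι F _ ϖ S q hF hqS hle l w w1 hl hw hs
  have hq := hF.1 q
  haveI : Gd (F q) := hq.gd
  refine ⟨hs.2.1, fun B1 hB1 hw1 => ?_⟩
  obtain ⟨B, hB, hwB, hmap⟩ := con (F q) (Or.inl ⟨ϖ q, hq⟩) _ w w1 hs B1 hB1 hw1
  obtain ⟨r, hr, hrch⟩ := hw.2 B hB hwB
  have hT : TrW [l] := by
    rcases hl with h | h | h
    · exact Or.inr (Or.inl (by rw [h]))
    · exact Or.inr (Or.inr (Or.inl (by rw [h])))
    · exact Or.inr (Or.inr (Or.inr (by rw [h])))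
  obtain ⟨r', hr', hrtg⟩ := rtg ι F ϖ S q hF hqS hle [l] r hT hr
  obtain ⟨r3, hr3, hmed⟩ := med (F q) (ϖ q) hq 0 1 (-1) 0 (by ring)
  have hmin : 0 < min (min r' r3) 1 := lt_min (lt_min hr' hr3) one_pos
  refine ⟨min (min r' r3) 1, hmin, fun z hz => ?_⟩
  have hz1 : NearE 0 r' z := nearE_le hmin (le_trans (min_le_left _ _) (min_le_left _ _)) hz
  have hz3 : NearE 0 r3 z := nearE_le hmin (le_trans (min_le_left _ _) (min_le_right _ _)) hz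
  obtain ⟨hb1, hb2⟩ := nearE_one hmin (min_le_right _ _) hz
  obtain ⟨z', hz'⟩ := hmed z hz3
  obtain ⟨hs1, hs2, hn⟩ := nearE_k fre hq.two_ne hz1 hz'
  obtain ⟨y, w2, hny, hrun, hRR⟩ := hrtg (swf z') hn
  obtain ⟨y', hsy, y2, hsy2, hU2, he⟩ := hrun
  rw [he] at hRR
  have hsy3 : Step .sw y2 y' := by
    refine ⟨hsy2.2.1, hsy2.1, ?_⟩
    have : y2 = swf y' := hsy2.2.2
    rw [this]
    rfl
  have hR1 : RR F S q z' y' := rcj ι F ϖ S q hF.1 [.sw] (swf z') y2 z' y' hRR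
    ⟨z', hs2, hs2.2.1, rfl⟩ ⟨y', hsy3, hsy3.2.1, rfl⟩
  have hR2 : RR F S q z y' := rtr ι F ϖ S q hF.1 z z' y'
    (rbs ι F ϖ S q hF hqS hle 0 1 (-1) 0 z z' hb1 hb2 hz') hR1
  have h1 : Rch F S q y' B1 := rcs ι F ϖ S q hF.1 [l] y y' B B1 (hrch y hny)
    ⟨y', hsy, hsy.2.1, rfl⟩ (fun x hx hxU => by
      obtain ⟨z2, hz2, hs2⟩ := hmap x hx hxU
      exact ⟨z2, hz2, z2, hs2, hs2.2.1, rfl⟩)
  exact rts ι F ϖ S q hF.1 z y' B1 hB1 hR2 h1

end Pool.Agent.WAR.H40
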