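import Pool.Agent.WAR.StmtsI

/-!
# WAR row RTS (helper40): `RR` and `Rch`
-/

namespace Pool.Agent.WAR.H40

open Classical

variable [Par]

theorem rts (ruc : RucStmt) (app : AppStmt) : RtsStmt := by
  intro ι F _ ϖ S q hF z1 z2 B hB h12 h23 u O hO
  obtain ⟨L2, hok2, hS2, w3, hw3, hrun2⟩ := h23 u O hO
  obtain ⟨B2, hB2, hzB2, hmap2⟩ := ruc (F q) (Or.inl ⟨ϖ q, hF q⟩) L2 z2 w3 hrun2 B hB hw3
  have key : ∀ v, ∃ (u2 : F v × F v × F v) (O' : Set (F v × F v × F v)), v ∈ S →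
      (OnU u2 ∧ IsOpen O' ∧ u2 ∈ O' ∧ O' ⊆ O v ∧ ∀ x ∈ O', OnU x → ∃ y ∈ O v, Run L2 x y) := by
    intro v
    by_cases hv : v ∈ S
    · obtain ⟨u2, hu2, w2, hw2, hr⟩ := hS2 v hv
      obtain ⟨-, hOo, -⟩ := hO v hv
      obtain ⟨O1, hO1, hu1, hm⟩ := ruc (F v) (Or.inl ⟨ϖ v, hF v⟩) L2 u2 w2 hr (O v) hOo hw2
      exact ⟨u2, O1 ∩ O v, fun _ => ⟨((app (F v) L2 [] u2 w2).2 hr).1, hO1.inter hOo,
        ⟨hu1, hu2⟩, Set.inter_subset_right, fun x hx hxU => hm x hx.1 hxU⟩⟩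
    · exact ⟨u v, O v, fun h => absurd h hv⟩
  choose u2 O' hkey using key
  obtain ⟨L1, hok1, hS1, z2', hz2', hrun1⟩ := h12.2.2 B2 hB2 hzB2 u2 O'
    (fun v hv => ⟨(hkey v hv).1, (hkey v hv).2.1, (hkey v hv).2.2.1⟩)
  refine ⟨L1 ++ L2, ?_, ?_, ?_⟩
  · intro l hl
    rcases List.mem_append.1 hl with h | h
    · exact hok1 l h
    · exact hok2 l h
  · intro v hv
    obtain ⟨u1, hu1, w1, hw1, hr⟩ := hS1 v hv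
    obtain ⟨-, -, -, hsub, hm⟩ := hkey v hv
    obtain ⟨y, hy, hry⟩ := hm w1 hw1 ((app (F v) L1 [] u1 w1).2 hr).2.1
    exact ⟨u1, hsub hu1, y, hy, (app (F v) L1 L2 u1 y).1.2 ⟨w1, hr, hry⟩⟩
  · obtain ⟨y, hy, hry⟩ := hmap2 z2' hz2' ((app (F q) L1 [] z1 z2').2 hrun1).2.1
    exact ⟨y, hy, (app (F q) L1 L2 z1 y).1.2 ⟨z2', hrun1, hry⟩⟩

end Pool.Agent.WAR.H40
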